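import Pool.Agent.Work.MP_70e905_nt.PK.P.Defs
import Pool.Agent.Work.MP_af11aa_nt.GLower

/-!
# PK/S/GLow (size S): lower bound of the Selberg sum and of the normalising factor

PROOF. `Pool.Agent.Work.MP_af11aa_nt.gSum_lower` with `T = prs z R`, `T' = prs 0 z`, `D = R`:
`∑_{n ≤ R} 1 / n ≤ gSum (∏ T) R * ∏_{p ≤ z} (1 - 1 / p)⁻¹`; `gSum (∏ T) R = ∑_{k ∣ ∏ T, k ≤ R} 1 / φ k = GS T R` (the
divisors of the squarefree number `∏ T` are the products of the subsets of `T`; `totient_prod_primes` in the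
same file) and `log R ≤ ∑_{n ≤ R} 1 / n`. Second theorem: for `w ≤ z` the product over `prs 0 z` is the product
over `prs 0 w` times the product over `prs w z`.
-/

set_option autoImplicit false

namespace PoolPK

open Finset

private theorem prs_prime {w z : ℕ} : ∀ p ∈ prs w z, p.Prime := fun p hp => by
  rw [prs, Finset.mem_filter] at hp
  exact hp.2

private theorem gSum_eq (T : Finset ℕ) (hT : ∀ p ∈ T, p.Prime) (R : ℕ) :
    Pool.Agent.Work.MP_af11aa_nt.gSum (∏ p ∈ T, p) R = GS T R := by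
  have hsq := Pool.Agent.Work.MP_af11aa_nt.squarefree_prod_primes hT
  unfold Pool.Agent.Work.MP_af11aa_nt.gSum GS
  refine Finset.sum_nbij' (fun k => k.primeFactors) (fun S => ∏ p ∈ S, p) ?_ ?_ ?_ ?_ ?_
  · intro k hk
    rw [Pool.Agent.Work.MP_af11aa_nt.mem_sDiv hsq.ne_zero] at hk
    rw [fam, Finset.mem_filter, Finset.mem_powerset]
    have hk2 : Squarefree k := hsq.squarefree_of_dvd hk.1
    refine ⟨?_, ?_⟩
    · have h1 := Nat.primeFactors_mono hk.1 hsq.ne_zero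
      rwa [Nat.primeFactors_prod hT] at h1
    · rw [Nat.prod_primeFactors_of_squarefree hk2]
      exact hk.2
  · intro S hS
    rw [fam, Finset.mem_filter, Finset.mem_powerset] at hS
    rw [Pool.Agent.Work.MP_af11aa_nt.mem_sDiv hsq.ne_zero]
    exact ⟨Finset.prod_dvd_prod_of_subset _ _ _ hS.1, hS.2⟩
  · intro k hk
    rw [Pool.Agent.Work.MP_af11aa_nt.mem_sDiv hsq.ne_zero] at hk
    exact Nat.prod_primeFactors_of_squarefree (hsq.squarefree_of_dvd hk.1)
  · intro S hS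
    rw [fam, Finset.mem_filter, Finset.mem_powerset] at hS
    exact Nat.primeFactors_prod fun p hp => hT p (hS.1 hp)
  · intro k hk
    rw [Pool.Agent.Work.MP_af11aa_nt.mem_sDiv hsq.ne_zero] at hk
    have hk2 : Squarefree k := hsq.squarefree_of_dvd hk.1
    have h1 : (Nat.totient k : ℝ) = ∏ p ∈ k.primeFactors, ((p : ℝ) - 1) := by
      rw [← Pool.Agent.Work.MP_af11aa_nt.totient_prod_primes
        fun p hp => Nat.prime_of_mem_primeFactors hp, Nat.prod_primeFactors_of_squarefree hk2]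
    rw [h1, Finset.prod_div_distrib, Finset.prod_const_one]

private theorem fac_pos {w z : ℕ} : 0 < ∏ p ∈ prs w z, (1 - 1 / (p : ℝ)) := by
  refine Finset.prod_pos fun p hp => ?_
  have h1 : (1 : ℝ) < p := by exact_mod_cast (prs_prime p hp).one_lt
  have h2 : 1 / (p : ℝ) < 1 := by
    rw [div_lt_one (by linarith)]
    exact h1
  linarith

theorem gs_lower (z R : ℕ) (hR : 1 ≤ R) :
    Real.log R * ∏ p ∈ prs 0 z, (1 - 1 / (p : ℝ)) ≤ GS (prs z R) R := by
  have h := Pool.Agent.Work.MP_af11aa_nt.gSum_lower (T := prs z R) (T' := prs 0 z) prs_prime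
    prs_prime (D := R) (by
      intro p hp hpR
      rw [prs, prs, Finset.mem_filter, Finset.mem_filter, Finset.mem_Ioc, Finset.mem_Ioc]
      rcases Nat.lt_or_ge z p with h1 | h1
      · exact Or.inl ⟨⟨h1, hpR⟩, hp⟩
      · exact Or.inr ⟨⟨hp.pos, h1⟩, hp⟩)
  rw [gSum_eq _ prs_prime] at h
  have hlog : Real.log R ≤ ∑ n ∈ Finset.Icc 1 R, (1 : ℝ) / n := by
    refine le_trans ?_ (Pool.Agent.Work.MP_af11aa_nt.log_le_harmonic R)
    have hR' : (0 : ℝ) < R := by exact_mod_cast hR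
    exact Real.log_le_log hR' (by linarith)
  have hinv : ∏ p ∈ prs 0 z, (1 - (p : ℝ)⁻¹)⁻¹ = (∏ p ∈ prs 0 z, (1 - 1 / (p : ℝ)))⁻¹ := by
    rw [← Finset.prod_inv_distrib]
    refine Finset.prod_congr rfl fun p _ => ?_
    rw [one_div]
  rw [hinv] at h
  have hpos := fac_pos (w := 0) (z := z)
  have h2 := hlog.trans h
  rwa [← div_eq_mul_inv, le_div_iff₀ hpos] at h2

theorem qf_lower (w z R : ℕ) (hwz : w ≤ z) (hR : 1 ≤ R) :
    Real.log R * ∏ p ∈ prs 0 w, (1 - 1 / (p : ℝ)) ≤ Qf w z R := by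
  have h := gs_lower z R hR
  have hsplit : ∏ p ∈ prs 0 z, (1 - 1 / (p : ℝ)) =
      (∏ p ∈ prs 0 w, (1 - 1 / (p : ℝ))) * ∏ p ∈ prs w z, (1 - 1 / (p : ℝ)) := by
    rw [← Finset.prod_union]
    · refine Finset.prod_congr ?_ fun _ _ => rfl
      ext p
      simp only [prs, Finset.mem_union, Finset.mem_filter, Finset.mem_Ioc]
      constructor
      · rintro ⟨⟨h1, h2⟩, h3⟩
        rcases Nat.lt_or_ge w p with h4 | h4
        · exact Or.inr ⟨⟨h4, h2⟩, h3⟩
        · exact Or.inl ⟨⟨h1, h4⟩, h3⟩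
      · rintro (⟨⟨h1, h2⟩, h3⟩ | ⟨⟨h1, h2⟩, h3⟩)
        · exact ⟨⟨h1, h2.trans hwz⟩, h3⟩
        · exact ⟨⟨by omega, h2⟩, h3⟩
    · rw [Finset.disjoint_left]
      intro p hp hp'
      simp only [prs, Finset.mem_filter, Finset.mem_Ioc] at hp hp'
      omega
  have hpos := fac_pos (w := w) (z := z)
  unfold Qf
  rw [Finset.prod_inv_distrib, ← div_eq_mul_inv, le_div_iff₀ hpos, mul_assoc, ← hsplit]
  exact h

end PoolPK
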