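import Pool.Agent.Work.MP_70e905_nt.PK.P.Defs
import Pool.Agent.Work.MP_2dba45_nt.Sel2

/-!
# PK/S/Wts (size S-M): Selberg weights, by sets of primes

PROOF. If `R ≥ 1`: use `Pool.Agent.Work.MP_2dba45_nt.Sel` with `g p = 1 / p` and the family
`D = fam P R` (this is `Dfam P R`, with the real number `(R : ℝ)`; `empty_mem_Dfam`, `Dfam_down`, `Dfam_sub`). Let
`λ A = lam g D A` (so `λ ∅ = 1` by `lam_empty`, `|λ A| ≤ 1` for `A ⊆ P` by `abs_lam_le`) and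
`ρ T = ∑ λ A * λ B` over the pairs `(A, B) ∈ D × D` with `A ∪ B = T`.
* `bound`: the pairs have `A, B ⊆ T`, so there are at most `4 ^ #T` of them.
* `empty`: only the pair `(∅, ∅)`.
* `nonneg`: for `A, B ∈ D` the set `A ∪ B ⊆ P` has product `≤ (∏ A) (∏ B) ≤ R ^ 2`, and all elements of `A ∪ B`
  divide `n` iff this holds for `A` and for `B`; so `tsum' P (R ^ 2) ρ n = (∑ A ∈ D, all of A divide n, λ A) ^ 2 ≥ 0`.
* `main`: `∑ ρ T ∏_{p ∈ T} 1 / p = ∑_{A, B ∈ D} λ A λ B gg g (A ∪ B) = (GG g D)⁻¹` (`main_eq`) and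
  `GG g D = GS P R`, since `(1 / p) / (1 - 1 / p) = 1 / (p - 1)`.
-/

set_option autoImplicit false

namespace PoolPK

open Finset

open Pool.Agent.Work.MP_2dba45_nt.Sel in
theorem wts (P : Finset ℕ) (hP : ∀ p ∈ P, p.Prime) (R : ℕ) (hR : 1 ≤ R) :
    ∃ ρ : Finset ℕ → ℝ, Wt P R ρ := by
  classical
  obtain ⟨D, hDdef⟩ : ∃ D, D = fam P R := ⟨_, rfl⟩
  obtain ⟨g, hg⟩ : ∃ g : ℕ → ℝ, g = fun p : ℕ => 1 / (p : ℝ) := ⟨_, rfl⟩
  have hp2 : ∀ p ∈ P, (2 : ℝ) ≤ p := fun p hp => by exact_mod_cast (hP p hp).two_le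
  have hg0 : ∀ p ∈ P, 0 < g p := by
    intro p hp
    have := hp2 p hp
    rw [hg]
    show 0 < 1 / (p : ℝ)
    positivity
  have hg1 : ∀ p ∈ P, g p < 1 := by
    intro p hp
    have := hp2 p hp
    rw [hg]
    show 1 / (p : ℝ) < 1
    rw [div_lt_one (by linarith)]
    linarith
  have hmem : ∀ T, T ∈ D ↔ T ⊆ P ∧ ∏ p ∈ T, p ≤ R := by
    intro T
    rw [hDdef, fam, mem_filter, mem_powerset]
  have hD : D ⊆ P.powerset := fun T hT => mem_powerset.2 ((hmem T).1 hT).1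
  have hD0 : ∅ ∈ D := (hmem ∅).2 ⟨empty_subset _, by rw [prod_empty]; exact hR⟩
  have hDc : ∀ T ∈ D, ∀ S ⊆ T, S ∈ D := by
    intro T hT S hST
    obtain ⟨h1, h2⟩ := (hmem T).1 hT
    refine (hmem S).2 ⟨hST.trans h1, le_trans ?_ h2⟩
    apply Finset.prod_le_prod_of_subset_of_one_le' hST
    intro p hp _
    exact (hP p (h1 hp)).one_lt.le
  obtain ⟨l, hl⟩ : ∃ l : Finset ℕ → ℝ, l = lam g D := ⟨_, rfl⟩
  have hl1 : ∀ T ∈ D, |l T| ≤ 1 := fun T hT => by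
    rw [hl]
    exact abs_lam_le hg0 hg1 hD hD0 hDc (mem_powerset.1 (hD hT))
  have hl0 : l ∅ = 1 := by
    rw [hl]
    exact lam_empty hg0 hg1 hD hD0
  obtain ⟨ρ, hρ⟩ : ∃ ρ : Finset ℕ → ℝ, ∀ T, ρ T =
      ∑ x ∈ (D ×ˢ D).filter (fun x => x.1 ∪ x.2 = T), l x.1 * l x.2 := ⟨_, fun T => rfl⟩
  have hmaps : ∀ x ∈ D ×ˢ D, x.1 ∪ x.2 ∈ fam P (R ^ 2) := by
    intro x hx
    rw [mem_product, hmem, hmem] at hx
    rw [fam, mem_filter, mem_powerset]
    refine ⟨union_subset hx.1.1 hx.2.1, ?_⟩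
    calc ∏ p ∈ x.1 ∪ x.2, p ≤ (∏ p ∈ x.1, p) * (∏ p ∈ x.2, p) := by
          rw [← Finset.prod_union_inter]
          apply Nat.le_mul_of_pos_right
          exact Finset.prod_pos fun p hp => (hP p (hx.1.1 (Finset.mem_inter.1 hp).1)).pos
      _ ≤ R * R := Nat.mul_le_mul hx.1.2 hx.2.2
      _ = R ^ 2 := (sq R).symm
  have key : ∀ F : Finset ℕ → ℝ, ∑ T ∈ fam P (R ^ 2), ρ T * F T =
      ∑ A ∈ D, ∑ B ∈ D, l A * l B * F (A ∪ B) := by
    intro F
    rw [← sum_product', ← sum_fiberwise_of_maps_to hmaps]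
    refine sum_congr rfl fun T _ => ?_
    rw [hρ, sum_mul]
    refine sum_congr rfl fun x hx => ?_
    rw [(mem_filter.1 hx).2]
  refine ⟨ρ, ?_, ?_, ?_, ?_⟩
  · intro T
    rw [hρ]
    refine (abs_sum_le_sum_abs _ _).trans ?_
    have h1 : ∀ x ∈ (D ×ˢ D).filter (fun x => x.1 ∪ x.2 = T), |l x.1 * l x.2| ≤ 1 := by
      intro x hx
      have h2 := mem_product.1 (mem_filter.1 hx).1
      rw [abs_mul]
      exact mul_le_one₀ (hl1 _ h2.1) (abs_nonneg _) (hl1 _ h2.2)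
    refine (sum_le_sum h1).trans ?_
    rw [sum_const, nsmul_eq_mul, mul_one]
    have h3 : (D ×ˢ D).filter (fun x => x.1 ∪ x.2 = T) ⊆ T.powerset ×ˢ T.powerset := by
      intro x hx
      have h4 := (mem_filter.1 hx).2
      rw [mem_product, mem_powerset, mem_powerset, ← h4]
      exact ⟨subset_union_left, subset_union_right⟩
    have h5 := card_le_card h3
    rw [card_product, card_powerset, ← mul_pow] at h5
    exact_mod_cast h5
  · rw [hρ]
    have h1 : (D ×ˢ D).filter (fun x => x.1 ∪ x.2 = ∅) = {(∅, ∅)} := by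
      ext x
      rw [mem_filter, mem_product, mem_singleton, union_eq_empty]
      constructor
      · rintro ⟨-, h2, h3⟩
        exact Prod.ext h2 h3
      · rintro rfl
        exact ⟨⟨hD0, hD0⟩, rfl, rfl⟩
    rw [h1, sum_singleton, hl0, mul_one]
  · intro n
    have h1 := key fun T => if (∀ p ∈ T, (p : ℤ) ∣ n) then 1 else 0
    have h2 : tsum' P (R ^ 2) ρ n =
        ∑ T ∈ fam P (R ^ 2), ρ T * (if (∀ p ∈ T, (p : ℤ) ∣ n) then 1 else 0) := by
      unfold tsum'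
      refine sum_congr rfl fun T _ => ?_
      by_cases h : ∀ p ∈ T, (p : ℤ) ∣ n
      · rw [if_pos h, if_pos h, mul_one]
      · rw [if_neg h, if_neg h, mul_zero]
    have h3 : ∑ A ∈ D, ∑ B ∈ D, l A * l B * (if (∀ p ∈ A ∪ B, (p : ℤ) ∣ n) then (1 : ℝ) else 0) =
        (∑ A ∈ D, l A * (if (∀ p ∈ A, (p : ℤ) ∣ n) then (1 : ℝ) else 0)) ^ 2 := by
      rw [sq, sum_mul_sum]
      refine sum_congr rfl fun A _ => sum_congr rfl fun B _ => ?_
      have h4 : (∀ p ∈ A ∪ B, (p : ℤ) ∣ n) ↔ (∀ p ∈ A, (p : ℤ) ∣ n) ∧ ∀ p ∈ B, (p : ℤ) ∣ n := by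
        simp only [mem_union]
        exact ⟨fun h => ⟨fun p hp => h p (Or.inl hp), fun p hp => h p (Or.inr hp)⟩,
          fun h p hp => hp.elim (h.1 p) (h.2 p)⟩
      by_cases ha : ∀ p ∈ A, (p : ℤ) ∣ n
      · by_cases hb : ∀ p ∈ B, (p : ℤ) ∣ n
        · rw [if_pos (h4.2 ⟨ha, hb⟩), if_pos ha, if_pos hb]
          ring
        · rw [if_neg (fun h => hb (h4.1 h).2), if_neg hb]
          ring
      · rw [if_neg (fun h => ha (h4.1 h).1), if_neg ha]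
        ring
    rw [h2, h1, h3]
    exact sq_nonneg _
  · have h1 := key fun T => ∏ p ∈ T, 1 / (p : ℝ)
    rw [h1]
    have h2 := main_eq hg0 hg1 hD hD0 hDc
    have h3 : GG g D = GS P R := by
      unfold GG GS hh
      rw [← hDdef]
      refine sum_congr rfl fun T hT => prod_congr rfl fun p hp => ?_
      have h4 := hp2 p (mem_powerset.1 (hD hT) hp)
      rw [hg]
      show 1 / (p : ℝ) / (1 - 1 / (p : ℝ)) = 1 / ((p : ℝ) - 1)
      have h5 : (p : ℝ) ≠ 0 := by linarith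
      have h6 : (p : ℝ) - 1 ≠ 0 := by linarith
      have h7 : 1 - 1 / (p : ℝ) = ((p : ℝ) - 1) / p := by
        field_simp
      rw [h7, div_div_div_cancel_right₀ h5]
    rw [← h3, ← h2, hl, hg]
    rfl

end PoolPK
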