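import Pool.Agent.Work.MP_70e905_nt.PK.P.Defs
import Pool.Agent.Work.MP_70e905_nt.Mertens
import Pool.Agent.Work.BV.DIVS

/-!
# PK/S/QUp (size S): crude upper bounds

PROOF. `1 / (p - 1) ≤ 2 / p`, so `GS P R ≤ ∑_{T ∈ fam P R} 2 ^ #T / ∏ T ≤ ∑_{q ≤ R} 2 ^ ω(q) / q ≤ (1 + log R) ^ 2` by
`BV.omega_sum 2 R` (the map `T ↦ ∏ T` is injective on sets of primes, `Nat.primeFactors_prod`). For `p ≥ 2`
`(1 - 1 / p)⁻¹ ≤ 1 + 2 / p ≤ exp (2 / p)`; `sum_inv_primes_le (z + 1)` gives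
`∏_{p ≤ z} (1 - 1 / p)⁻¹ ≤ exp (18 + 8 log log (z + 1)) = e ^ 18 (log (z + 1)) ^ 8` for `z ≥ 2`.
-/

set_option autoImplicit false

namespace PoolPK

open Finset

private theorem qup_term_nonneg {T : Finset ℕ} (hT : ∀ p ∈ T, p.Prime) :
    0 ≤ ∏ p ∈ T, 1 / ((p : ℝ) - 1) := by
  refine Finset.prod_nonneg fun p hp => ?_
  have h2 : (2 : ℝ) ≤ p := by exact_mod_cast (hT p hp).two_le
  have : (0 : ℝ) ≤ (p : ℝ) - 1 := by linarith
  positivity

private theorem qup_mem_prime {P : Finset ℕ} (hP : ∀ p ∈ P, p.Prime) {R : ℕ} {T : Finset ℕ}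
    (hT : T ∈ fam P R) : (∀ p ∈ T, p.Prime) ∧ ∏ p ∈ T, p ≤ R := by
  unfold fam at hT
  rw [Finset.mem_filter, Finset.mem_powerset] at hT
  exact ⟨fun p hp => hP p (hT.1 hp), hT.2⟩

theorem gs_pos (P : Finset ℕ) (hP : ∀ p ∈ P, p.Prime) (R : ℕ) (hR : 1 ≤ R) : 1 ≤ GS P R := by
  unfold GS
  have h0 : (∅ : Finset ℕ) ∈ fam P R := by
    unfold fam
    rw [Finset.mem_filter, Finset.mem_powerset]
    exact ⟨Finset.empty_subset _, by simpa using hR⟩
  have h1 := Finset.single_le_sum (f := fun T : Finset ℕ => ∏ p ∈ T, 1 / ((p : ℝ) - 1))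
    (fun T hT => qup_term_nonneg (qup_mem_prime hP hT).1) h0
  simpa using h1

theorem gs_upper (P : Finset ℕ) (hP : ∀ p ∈ P, p.Prime) (R : ℕ) (hR : 1 ≤ R) :
    GS P R ≤ (1 + Real.log R) ^ 2 := by
  classical
  set f : ℕ → ℝ := fun q => ((2 : ℕ) : ℝ) ^ q.primeFactors.card / q with hf
  have h1 : ∀ T ∈ fam P R, ∏ p ∈ T, 1 / ((p : ℝ) - 1) ≤ f (∏ p ∈ T, p) := by
    intro T hT
    have hpr := (qup_mem_prime hP hT).1
    have e1 : f (∏ p ∈ T, p) = ∏ p ∈ T, (2 / (p : ℝ)) := by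
      simp only [hf]
      rw [Nat.primeFactors_prod hpr, Finset.prod_div_distrib, Finset.prod_const]
      push_cast
      rfl
    rw [e1]
    refine Finset.prod_le_prod (fun p hp => ?_) fun p hp => ?_
    · have h2 : (2 : ℝ) ≤ p := by exact_mod_cast (hpr p hp).two_le
      have : (0 : ℝ) ≤ (p : ℝ) - 1 := by linarith
      positivity
    · have h2 : (2 : ℝ) ≤ p := by exact_mod_cast (hpr p hp).two_le
      rw [div_le_div_iff₀ (by linarith) (by linarith)]
      linarith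
  have hinj : Set.InjOn (fun T : Finset ℕ => ∏ p ∈ T, p) (fam P R : Set (Finset ℕ)) := by
    intro T hT T' hT' he
    have a := Nat.primeFactors_prod (qup_mem_prime hP hT).1
    have b := Nat.primeFactors_prod (qup_mem_prime hP hT').1
    simp only at he
    rw [← a, ← b, he]
  have h2 : ∑ T ∈ fam P R, f (∏ p ∈ T, p) = ∑ q ∈ (fam P R).image (fun T => ∏ p ∈ T, p), f q := by
    rw [Finset.sum_image hinj]
  have h3 : ∑ q ∈ (fam P R).image (fun T => ∏ p ∈ T, p), f q ≤ ∑ q ∈ Finset.Icc 1 R, f q := by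
    refine Finset.sum_le_sum_of_subset_of_nonneg ?_ fun q _ _ => ?_
    · intro q hq
      rw [Finset.mem_image] at hq
      obtain ⟨T, hT, rfl⟩ := hq
      rw [Finset.mem_Icc]
      refine ⟨?_, (qup_mem_prime hP hT).2⟩
      exact Nat.one_le_iff_ne_zero.2
        (Finset.prod_ne_zero_iff.2 fun p hp => ((qup_mem_prime hP hT).1 p hp).ne_zero)
    · simp only [hf]
      positivity
  unfold GS
  calc _ ≤ ∑ T ∈ fam P R, f (∏ p ∈ T, p) := Finset.sum_le_sum h1
    _ ≤ ∑ q ∈ Finset.Icc 1 R, f q := h2 ▸ h3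
    _ ≤ (1 + Real.log R) ^ 2 := BV.omega_sum 2 R hR

theorem qf_upper : ∃ C : ℝ, 0 < C ∧ ∀ w z R : ℕ, 2 ≤ z → 1 ≤ R →
    0 < Qf w z R ∧ Qf w z R ≤ C * Real.log (z + 1) ^ 8 * (1 + Real.log R) ^ 2 := by
  refine ⟨Real.exp 18, Real.exp_pos _, ?_⟩
  intro w z R hz hR
  have hpr : ∀ p ∈ prs z R, p.Prime := by
    intro p hp
    unfold prs at hp
    exact (Finset.mem_filter.1 hp).2
  have hpw : ∀ p ∈ prs w z, p.Prime := by
    intro p hp
    unfold prs at hp
    exact (Finset.mem_filter.1 hp).2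
  have g1 := gs_pos (prs z R) hpr R hR
  have g2 := gs_upper (prs z R) hpr R hR
  have hfac : ∀ p ∈ prs w z, (0 : ℝ) < (1 - 1 / (p : ℝ))⁻¹ ∧
      (1 - 1 / (p : ℝ))⁻¹ ≤ Real.exp (2 * (1 / (p : ℝ))) := by
    intro p hp
    have h2 : (2 : ℝ) ≤ p := by exact_mod_cast (hpw p hp).two_le
    have h3 : 1 / (p : ℝ) ≤ 1 / 2 := one_div_le_one_div_of_le (by norm_num) h2
    have h3' : 0 < 1 / (p : ℝ) := by positivity
    have h4 : 0 < 1 - 1 / (p : ℝ) := by linarith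
    refine ⟨inv_pos.2 h4, ?_⟩
    refine le_trans ?_ (Real.add_one_le_exp _)
    rw [inv_le_iff_one_le_mul₀ h4]
    nlinarith
  have hpos : 0 < ∏ p ∈ prs w z, (1 - 1 / (p : ℝ))⁻¹ :=
    Finset.prod_pos fun p hp => (hfac p hp).1
  have hlog : 0 < Real.log ((z : ℝ) + 1) := by
    apply Real.log_pos
    have : (2 : ℝ) ≤ z := by exact_mod_cast hz
    linarith
  have hprod : ∏ p ∈ prs w z, (1 - 1 / (p : ℝ))⁻¹ ≤ Real.exp 18 * Real.log (z + 1) ^ 8 := by
    calc ∏ p ∈ prs w z, (1 - 1 / (p : ℝ))⁻¹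
        ≤ ∏ p ∈ prs w z, Real.exp (2 * (1 / (p : ℝ))) :=
          Finset.prod_le_prod (fun p hp => (hfac p hp).1.le) fun p hp => (hfac p hp).2
      _ = Real.exp (∑ p ∈ prs w z, 2 * (1 / (p : ℝ))) := by rw [Real.exp_sum]
      _ ≤ Real.exp (2 * (9 + 4 * Real.log (Real.log ((z : ℝ) + 1)))) := by
          rw [Real.exp_le_exp, ← Finset.mul_sum]
          refine mul_le_mul_of_nonneg_left ?_ (by norm_num)
          have h5 := Pool.Agent.Work.MP_70e905_nt.sum_inv_primes_le (z + 1) (by omega)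
          push_cast at h5
          refine le_trans ?_ h5
          refine Finset.sum_le_sum_of_subset_of_nonneg ?_ fun p _ _ => by positivity
          intro p hp
          unfold prs at hp
          rw [Finset.mem_filter, Finset.mem_Ioc] at hp
          rw [Nat.mem_primesBelow]
          exact ⟨by omega, hp.2⟩
      _ = Real.exp 18 * Real.log (z + 1) ^ 8 := by
          have h6 : 2 * (9 + 4 * Real.log (Real.log ((z : ℝ) + 1))) =
              18 + ((8 : ℕ) : ℝ) * Real.log (Real.log ((z : ℝ) + 1)) := by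
            push_cast
            ring
          rw [h6, Real.exp_add, Real.exp_nat_mul, Real.exp_log hlog]
  unfold Qf
  refine ⟨mul_pos (by linarith) hpos, ?_⟩
  calc GS (prs z R) R * ∏ p ∈ prs w z, (1 - 1 / (p : ℝ))⁻¹
      ≤ (1 + Real.log R) ^ 2 * (Real.exp 18 * Real.log (z + 1) ^ 8) :=
        mul_le_mul g2 hprod hpos.le (by positivity)
    _ = _ := by ring

end PoolPK
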